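import Pool.Agent.RS.StmtsF

set_option autoImplicit false

/-!
# Squad RS, row STO: the stop
-/

namespace Pool.Agent.RS.H30

open MvPolynomial

theorem sto (sta : StaStmt) (stb : StbStmt) (phb : PhbStmt) : StoStmt := by
  intro E _ ι _ _ a b e D J hb hd he hed hn hq
  obtain ⟨w, hw⟩ := sta E ι a b e D hb (fun t => (hd t).2) he hq
  have hw' : w * ∏ t, b t = numer a b * e ^ D := by rw [hw, mul_comm]
  have hw0 : w ≠ 0 := by
    intro h
    rw [h, zero_mul] at hw'
    exact mul_ne_zero hn (pow_ne_zero D he) hw'.symm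
  have hwd : w.totalDegree ≤ D + D * D :=
    (stb E ι a b e w D hb (fun t => (hd t).1) he hw').trans
      (Nat.add_le_add_left (Nat.mul_le_mul_left D hed) D)
  classical
  refine ⟨{w, e} ∪ Finset.univ.image b, ?_, ?_⟩
  · intro h hh
    rw [Finset.mem_union, Finset.mem_insert, Finset.mem_singleton, Finset.mem_image] at hh
    rcases hh with (rfl | rfl) | ⟨t, _, rfl⟩
    · exact ⟨hw0, hwd⟩
    · exact ⟨he, hed.trans (Nat.le_add_right _ _)⟩
    · exact ⟨hb t, (hd t).2.trans (Nat.le_add_right _ _)⟩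
  · intro ζ hζ
    have key : ∀ h : MvPolynomial ℕ E, eval ζ h ≠ 0 → Phi J ζ h ≠ 0 := by
      intro h hh h0
      apply hh
      rw [← (phb E J ζ h).1, h0, map_zero]
    have hbt : ∀ t, Phi J ζ (b t) ≠ 0 := fun t => key _ (hζ _ (by
      rw [Finset.mem_union, Finset.mem_image]
      exact Or.inr ⟨t, Finset.mem_univ t, rfl⟩))
    refine ⟨hbt, fun h0 => ?_⟩
    have h1 : Phi J ζ w ≠ 0 := key _ (hζ _ (by simp))
    have h2 := congrArg (Phi J ζ) hw'
    rw [map_mul, map_mul, map_prod, h0, zero_mul] at h2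
    exact mul_ne_zero h1 (Finset.prod_ne_zero_iff.2 fun t _ => hbt t) h2

end Pool.Agent.RS.H30
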